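import Pool.Agent.helper48.CG.Spec

set_option autoImplicit false

namespace Pool.Agent.helper48.CG

open Equiv Finset Function Filter Topology Pool.Agent.helper48.PP

theorem GRW : GRW_stmt := by
  intro s A P c c' β hc hc' hβ h1 h2 h3 g1 g2 g3 hP hA hex
  by_contra hcon
  push Not at hcon
  have ha1 := one_le_rg hc h1 h3
  set a := rg s with ha
  set H : ℝ := (a + β) ^ 2 with hH
  have hH0 : 0 < H := by positivity
  have step1 : ∀ n M, M ≤ n → s M * (n.choose M : ℝ) ^ 2 * A (n - M) ≤
      (n + 1) * H ^ n := by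
    intro n M hM
    obtain ⟨q, rfl⟩ : ∃ q, n = M + q := ⟨n - M, by omega⟩
    rw [Nat.add_sub_cancel_left, hA q, Finset.mul_sum]
    have : ∀ j ∈ Finset.range (q + 1), s M * ((M + q).choose M : ℝ) ^ 2 *
        (P q j * (1 / H) ^ j) ≤ H ^ (M + q) := by
      intro j _
      have h5 := hcon M q j
      have h6 : ((M + q).choose q : ℝ) = (M + q).choose M := by
        rw [← Nat.choose_symm_add]
      rw [h6, pow_mul] at h5
      change _ ≤ H ^ (M + (q + j)) at h5
      rw [one_div, inv_pow]
      have h7 : H ^ (M + (q + j)) = H ^ (M + q) * H ^ j := by rw [← pow_add]; congr 1; ring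
      rw [h7] at h5
      calc s M * ((M + q).choose M : ℝ) ^ 2 * (P q j * (H ^ j)⁻¹) =
          (s M * ((M + q).choose M * ((M + q).choose M * P q j))) / H ^ j := by
            field_simp
        _ ≤ H ^ (M + q) := by
            rw [div_le_iff₀ (by positivity)]; exact h5
    calc _ ≤ ∑ j ∈ Finset.range (q + 1), H ^ (M + q) := Finset.sum_le_sum this
      _ = (q + 1) * H ^ (M + q) := by
          rw [Finset.sum_const, Finset.card_range, nsmul_eq_mul]; push_cast; ring
      _ ≤ _ := by
          gcongr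
          push_cast
          linarith [(Nat.cast_nonneg M : (0:ℝ) ≤ M)]
  have hb : β < rg A := by
    obtain ⟨q, hq⟩ := hex
    have h5 := le_rg_pow hc' g1 g2 g3 q
    have hb1 := one_le_rg hc' g1 g3
    exact lt_of_pow_lt_pow_left₀ (2 * q) (by linarith) (hq.trans_le h5)
  set b := rg A with hbdef
  set t : ℝ := max 0 (a - (b - β) / 4) with ht
  set t' : ℝ := max 0 (b - (b - β) / 4) with ht'
  have ht0 : 0 ≤ t := le_max_left _ _
  have ht'0 : 0 ≤ t' := le_max_left _ _
  have hta : t < a := max_lt (by linarith) (by linarith)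
  have htb : t' < b := max_lt (by linarith) (by linarith)
  have htr : a + β < t + t' := by
    have e1 := le_max_right 0 (a - (b - β) / 4)
    have e2 := le_max_right 0 (b - (b - β) / 4)
    rw [← ht] at e1
    rw [← ht'] at e2
    linarith
  obtain ⟨κ1, hκ10, hκ11, hκ1⟩ := exists_kappa h1 h2 ht0 hta
  obtain ⟨κ2, hκ20, hκ21, hκ2⟩ := exists_kappa g1 g2 ht'0 htb
  set κ : ℝ := κ1 * κ2 with hκdef
  have hκ0 : 0 < κ := mul_pos hκ10 hκ20
  have hκ1' : κ ≤ 1 := by
    rw [hκdef]; nlinarith
  have step2 : ∀ n : ℕ, (t + t') ^ n ≤ ((n + 1) ^ 2 / κ) * (a + β) ^ n := by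
    intro n
    rw [add_pow]
    have : ∀ M ∈ Finset.range (n + 1), t ^ M * t' ^ (n - M) * (n.choose M : ℝ) ≤
        ((n + 1) / κ) * (a + β) ^ n := by
      intro M hM
      rw [Finset.mem_range] at hM
      have h5 := step1 n M (by omega)
      have h6 := hκ1 M
      have h6' := hκ2 (n - M)
      have hA0 : 0 ≤ A (n - M) := zero_le_one.trans (g1 _)
      have hs0 : 0 ≤ s M := zero_le_one.trans (h1 _)
      refine le_of_sq_le_sq ?_ (by positivity)
      calc (t ^ M * t' ^ (n - M) * (n.choose M : ℝ)) ^ 2 =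
          t ^ (2 * M) * (n.choose M : ℝ) ^ 2 * t' ^ (2 * (n - M)) := by
            ring
        _ ≤ (s M / κ1) * (n.choose M : ℝ) ^ 2 * (A (n - M) / κ2) := by
            gcongr
            · rw [le_div_iff₀ hκ10, mul_comm]; exact h6
            · rw [le_div_iff₀ hκ20, mul_comm]; exact h6'
        _ = (s M * (n.choose M : ℝ) ^ 2 * A (n - M)) / κ := by
            rw [hκdef]; field_simp
        _ ≤ ((n + 1) * H ^ n) / κ := by gcongr
        _ = ((n + 1) / κ) * H ^ n := by ring
        _ ≤ ((n + 1) / κ) ^ 2 * H ^ n := by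
            gcongr
            have h8 : 1 ≤ ((n:ℝ) + 1) / κ := by
              rw [le_div_iff₀ hκ0, one_mul]
              linarith [(Nat.cast_nonneg n : (0:ℝ) ≤ n)]
            nlinarith
        _ = (((n + 1) / κ) * (a + β) ^ n) ^ 2 := by
            rw [hH, mul_pow, ← pow_mul, ← pow_mul, mul_comm 2 n]
    calc _ ≤ ∑ M ∈ Finset.range (n + 1), ((n + 1) / κ) * (a + β) ^ n := Finset.sum_le_sum this
      _ = _ := by
          rw [Finset.sum_const, Finset.card_range, nsmul_eq_mul]; push_cast; ring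
  have hρ : 1 < (t + t') / (a + β) := by
    rw [lt_div_iff₀ (by linarith), one_mul]; exact htr
  have hlim := tendsto_pow_const_div_const_pow_of_one_lt 2 hρ
  have hev := (hlim.eventually (gt_mem_nhds (show (0:ℝ) < κ / 4 by positivity))).and
    (eventually_ge_atTop 1)
  obtain ⟨n, hn1, hn2⟩ := hev.exists
  have h9 := step2 n
  have hn3 : (1:ℝ) ≤ n := by exact_mod_cast hn2
  have htt : 0 < t + t' := by linarith
  rw [div_pow, div_div_eq_mul_div, div_lt_iff₀ (pow_pos htt n)] at hn1
  have h10 : (t + t') ^ n * κ ≤ (n + 1) ^ 2 * (a + β) ^ n := by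
    have := mul_le_mul_of_nonneg_right h9 hκ0.le
    calc _ ≤ _ := this
      _ = _ := by field_simp
  have h11 : ((n:ℝ) + 1) ^ 2 ≤ 4 * (n:ℝ) ^ 2 := by nlinarith
  have h12 : (0:ℝ) < (a + β) ^ n := by positivity
  nlinarith

end Pool.Agent.helper48.CG
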