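import Pool.Agent.helper48.CG.Spec

set_option autoImplicit false

namespace Pool.Agent.helper48.CG

open Equiv Finset Function Pool.Agent.helper48.PP

theorem IN2 (hHG : HG_stmt) : IN2_stmt := by
  intro b q d y v a ha hav x g hg1 hg2 hx
  obtain ⟨H1, H2, H3, H4, H5, H6⟩ := hHG y v
  have H5' := H5 hav
  -- a new element has no element below and to the left
  have key : ∀ (i : Fin d) (z : Fin q ⊕ Fin d), ipk a z < ipk a (Sum.inr i) →
      ivk y v a z < ivk y v a (Sum.inr i) → False := by
    intro i z hz1 hz2
    rcases z with u | i'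
    · simp only [ipk, ivk] at hz1 hz2
      have e1 : (u : ℕ) + 1 ≤ (a i : ℕ) := by omega
      have e2 := H5' u
      have e3 := H2 _ _ e1
      have e4 : hgt y v (a i) ≤ (v u : ℕ) := e3.trans e2
      have e5 : (d + 1) * hgt y v (a i) ≤ (d + 1) * (v u : ℕ) := Nat.mul_le_mul_left _ e4
      have e6 := i.isLt
      omega
    · simp only [ipk, ivk] at hz1 hz2
      have e0 : (a i' : ℕ) < (a i : ℕ) := by omega
      have e1 : i' < i := by
        by_contra hn
        push Not at hn
        have := ha.monotone hn
        have : (a i : ℕ) ≤ (a i' : ℕ) := this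
        omega
      have e3 := H2 _ _ e0.le
      have e5 : (d + 1) * hgt y v (a i) ≤ (d + 1) * hgt y v (a i') := Nat.mul_le_mul_left _ e3
      have e6 := i.isLt
      have e7 := i'.isLt
      have e8 : (i' : ℕ) < (i : ℕ) := e1
      omega
  -- all `g t` are old
  have hold : ∀ t, ∃ u : Fin q, g t = Sum.inl u := by
    intro t
    rcases hgt' : g t with u | i
    · exact ⟨u, rfl⟩
    · exfalso
      have := hx t
      rw [hgt'] at this
      exact key i x this.1 this.2
  choose g' hg' using hold
  have hcopy : IsCopy v y g' := by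
    refine ⟨fun s t hst => ?_, fun s t => ?_⟩
    · have := hg1 s t hst
      rw [hg' s, hg' t] at this
      simp only [ipk] at this
      rw [Fin.lt_def]; omega
    · rw [← hg2 s t, hg' s, hg' t]
      simp only [ivk]
      rw [Fin.lt_def]
      constructor
      · intro h
        have : (d + 1) * (v (g' s) : ℕ) < (d + 1) * (v (g' t) : ℕ) :=
          Nat.mul_lt_mul_of_pos_left h (by omega)
        omega
      · intro h
        have : (d + 1) * (v (g' s) : ℕ) < (d + 1) * (v (g' t) : ℕ) := by omega
        exact lt_of_mul_lt_mul_left this (by omega)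
  rcases x with u | i
  · -- old
    apply hav
    refine ⟨Fin.append (fun _ : Fin 1 => u) g', ?_⟩
    refine isCopy_append (x := (1 : Perm (Fin 1))) (f := fun _ : Fin 1 => u) ⟨?_, ?_⟩ hcopy ?_
    · intro s t hst
      exact absurd hst (by rw [Subsingleton.elim s t]; exact lt_irrefl _)
    · intro s t
      rw [Subsingleton.elim s t]
      simp
    · intro s t
      have := hx t
      rw [hg' t] at this
      simp only [ipk, ivk] at this
      refine ⟨by rw [Fin.lt_def]; omega, ?_⟩
      rw [Fin.lt_def]
      have h3 : (d + 1) * (v u : ℕ) < (d + 1) * (v (g' t) : ℕ) := by omega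
      exact lt_of_mul_lt_mul_left h3 (by omega)
  · -- new
    have hY : Yge y v (a i) (hgt y v (a i)) := by
      refine ⟨g', hcopy, fun t => ?_⟩
      have := hx t
      rw [hg' t] at this
      simp only [ipk, ivk] at this
      refine ⟨by omega, ?_⟩
      by_contra hn
      push Not at hn
      have h3 : (d + 1) * ((v (g' t) : ℕ) + 1) ≤ (d + 1) * hgt y v (a i) :=
        Nat.mul_le_mul_left _ hn
      have h4 : (d + 1) * ((v (g' t) : ℕ) + 1) = (d + 1) * (v (g' t) : ℕ) + (d + 1) := by ring
      omega
    exact absurd ((H1 _ _).mp hY) (lt_irrefl _)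

end Pool.Agent.helper48.CG
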